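import Mathlib
import Pool.Agent.N455.TX.SpQ
import Pool.Agent.N455.HT.Dg
import Pool.Agent.Results.MP_c076ed_nt.UniformPortrait

/-!
# Thin families: the rational preperiodic points along sequences equidistributed modulo all integers

Let `v_0(n), v_1(n), ...` be sequences of integers which are jointly equidistributed modulo all
integers, for `n` in finite sets `S_N`, `N → ∞`. For example `v_l(n) = ⌊P_l(n)⌋` with generalised
polynomials `P_l` (finite sums of real powers, leading exponents positive, distinct and not integral,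
leading coefficients positive), for the integers `n` or the primes `n` in `(N, 2N]`: the points
`(v_1(n), ..., v_m(n))` are then a very sparse set of vectors, on a curve.

**Theorem.** There is ONE set `E` of relative density zero (depending on the sequences only) such that
for ALL algebraic families of endomorphisms of `ℙ¹` of degree `d ≥ 2` over `ℚ`, with any number `m` of
parameters, and for all but finitely many `n` outside `E` the rational preperiodic points of the member
with parameters `v_{l_1}(n), ..., v_{l_m}(n)` (or `v_{l_1}(n) / v_{l_0}(n), ...`) are exactly the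
specialisations of the rational preperiodic points of the generic member, with the same directed graph;
and if the family is not constant, there are at most `N(d)` of them, where `N(d)` depends on nothing
but `d`.

Proof. The starting result `UniformPortrait` is about 100% of the parameters in boxes. Its proof needs
Hilbert's irreducibility theorem for a notion of density. Here this is proved for the density along
every sequence which is equidistributed modulo all integers (`Pool.Agent.N455.HT`): if a monic
polynomial `Φ` in one variable over `ℤ[t]` has no root in `ℤ[t]`, then `Φ(v(n), T)` has no integral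
root for almost all `n`. For the irreducible factors of `Φ` the theorem of Lang and Weil for finitely
generated domains (`Pool.Agent.R410.LW`), applied to the domain `ℤ[t][T]/Φ` and to a component of its
fibre square outside of the diagonal, gives the first two moments of the number of roots modulo `p`
in terms of the numbers of prime ideals of degree one above `p` in two number fields; by the poles of
their zeta functions (`Pool.Agent.H921R2`) the sum over `p` of the densities of the residue classes
`t mod p` without root diverges, and Turan's sieve for thin sequences (helper666,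
`Pool.Agent.N666.TM`) finishes the proof. Then the transfer to ultrapowers of
`Pool.Agent.Y706` is repeated for an abstract notion of density (`Pool.Agent.N455.TX`). A diagonal
argument gives one null set for all families.
-/

set_option autoImplicit false

namespace Pool.Agent.Results.MP_c076ed_nt.AllFamiliesAlongSequences

open MvPolynomial Filter Topology
open Pool.Agent.Results.MP_c076ed_nt.UniformPortrait (IsMorphism IsPortrait RF generic IsConstant)

/-- `E` has density zero relative to the finite sets `S N`, `N → ∞`. -/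
def NullIn (S : ℕ → Finset ℕ) (E : Set ℕ) : Prop :=
  ∀ ε : ℝ, 0 < ε → ∃ N₀ : ℕ, ∀ N : ℕ, N₀ ≤ N →
    ({t : ℕ | t ∈ S N ∧ t ∈ E}.ncard : ℝ) ≤ ε * (S N).card

/-- The sequences `v 0, v 1, v 2, ...` of integers are jointly equidistributed modulo all integers,
along the finite sets `S N`, `N → ∞`: for distinct `e 0, ..., e (k - 1)` and all residue classes
`a 0, ..., a (k - 1)` modulo `q` the proportion of the `n` in `S N` such that `v (e l) n` is in the
class `a l` for all `l` tends to `1 / q ^ k`. -/
def Equidistributed (S : ℕ → Finset ℕ) (v : ℕ → ℕ → ℤ) : Prop :=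
  ∀ (k : ℕ) (e : Fin k → ℕ), Function.Injective e → ∀ q : ℕ, 1 ≤ q → ∀ a : Fin k → ℤ,
    Tendsto (fun N : ℕ => ({n : ℕ | n ∈ S N ∧ ∀ l, v (e l) n ≡ a l [ZMOD q]}.ncard : ℝ) / (S N).card)
      atTop (𝓝 (1 / (q : ℝ) ^ k))

/-- The member of the family `F` with the parameters `t` is an endomorphism of `ℙ¹`, the values at `t`
of the vectors `x i` of polynomials are the homogeneous coordinates of its preperiodic points in
`ℙ¹(ℚ)`, without repetitions, and the `i`-th of them is mapped to the `σ i`-th. -/
def HasPortrait {m r : ℕ} (F : Fin 2 → MvPolynomial (Fin 2) (MvPolynomial (Fin m) ℚ))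
    (x : Fin r → Fin 2 → MvPolynomial (Fin m) ℚ) (σ : Fin r → Fin r) (t : Fin m → ℚ) : Prop :=
  IsMorphism (fun i => (F i).map (eval t)) ∧
    IsPortrait (fun i => (F i).map (eval t)) (fun i j => eval t (x i j)) σ

/-- `c` is the largest exponent of the generalised polynomial `∑ a_x t ^ x`; it is positive and not an
integer and has a positive coefficient. -/
def Admissible (F : Finset ℝ) (a : ℝ → ℝ) (c : ℝ) : Prop :=
  c ∈ F ∧ (∀ x ∈ F, x ≤ c) ∧ 0 < c ∧ (∀ m : ℕ, c ≠ m) ∧ 0 < a c

/-- The integer part of the value at `t` of the `l`-th generalised polynomial. -/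
noncomputable def floors (P : ℕ → Finset ℝ) (a : ℕ → ℝ → ℝ) (l t : ℕ) : ℤ :=
  ⌊∑ x ∈ P l, a l x * (t : ℝ) ^ x⌋

/-- the data of a portrait -/
abbrev Dat (m : ℕ) : Type := ℕ × (Fin 2 → MvPolynomial (Fin 2) (MvPolynomial (Fin m) ℚ)) ×
  (Σ r : ℕ, (Fin r → Fin 2 → MvPolynomial (Fin m) ℚ) × (Fin r → Fin r))

/-- the hypotheses -/
def Hyp {m : ℕ} (D : Dat m) : Prop :=
  2 ≤ D.1 ∧ (∀ i, (D.2.1 i).IsHomogeneous D.1) ∧ IsMorphism (generic D.2.1) ∧
    IsPortrait (generic D.2.1)
      (fun i j => algebraMap (MvPolynomial (Fin m) ℚ) (RF m) (D.2.2.2.1 i j)) D.2.2.2.2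

theorem countable_mv (σ R : Type) [Countable σ] [CommRing R] [Countable R] :
    Countable (MvPolynomial σ R) := by
  rw [← Cardinal.mk_le_aleph0_iff]
  refine (MvPolynomial.cardinalMk_le_max (σ := σ) (R := R)).trans ?_
  exact max_le (max_le (Cardinal.mk_le_aleph0_iff.2 inferInstance)
    (Cardinal.mk_le_aleph0_iff.2 inferInstance)) le_rfl

theorem countable_dat (m : ℕ) : Countable (Dat m) := by
  have h1 : Countable (MvPolynomial (Fin m) ℚ) := countable_mv _ _
  have h2 : Countable (MvPolynomial (Fin 2) (MvPolynomial (Fin m) ℚ)) := countable_mv _ _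
  infer_instance

theorem bad_null {m : ℕ} {D : Dat m} (hD : Hyp D) {S : ℕ → Finset ℕ} {v : ℕ → ℕ → ℤ}
    (hv : Equidistributed S v) :
    (∀ e : Fin m → ℕ, Function.Injective e →
      NullIn S {n | ¬ HasPortrait D.2.1 D.2.2.2.1 D.2.2.2.2 fun l => (v (e l) n : ℚ)}) ∧
    (∀ e : Fin (m + 1) → ℕ, Function.Injective e →
      NullIn S {n | ¬ (v (e 0) n ≠ 0 ∧ HasPortrait D.2.1 D.2.2.2.1 D.2.2.2.2
        fun l => (v (e l.succ) n : ℚ) / (v (e 0) n : ℚ))}) := by
  obtain ⟨hd, hF, hmor, hport⟩ := hD
  have h := Pool.Agent.N455.TX.spec_Q (N := 1) (F := D.2.1) hd hF hmor (x := D.2.2.2.1)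
    (σ := D.2.2.2.2) hport
  constructor
  · intro e he
    refine h.1 S (fun n l => v (e l) n) ?_
    intro q hq a
    rw [Fintype.card_fin]
    exact hv m e he q hq a
  · intro e he
    refine h.2 S (fun n l => v (e l) n) ?_
    intro q hq a
    rw [Fintype.card_fin]
    exact hv (m + 1) e he q hq a

theorem equi_floors {P : ℕ → Finset ℝ} {a : ℕ → ℝ → ℝ} {c : ℕ → ℝ}
    (h : ∀ l, Admissible (P l) (a l) (c l)) (hc : Function.Injective c) :
    Equidistributed (fun N => Finset.Ioc N (2 * N)) (floors P a) ∧
      Equidistributed (fun N => (Finset.Ioc N (2 * N)).filter Nat.Prime) (floors P a) := by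
  have key : ∀ (k : ℕ) (e : Fin (k + 1) → ℕ), Function.Injective e →
      Pool.Agent.N455.HT.Equi (fun N => Finset.Ioc N (2 * N)) (fun n l => floors P a (e l) n) ∧
      Pool.Agent.N455.HT.Equi (fun N => (Finset.Ioc N (2 * N)).filter Nat.Prime)
        (fun n l => floors P a (e l) n) := by
    intro k e he
    obtain ⟨h1, h2⟩ := Pool.Agent.N666.TM.fl_well (ι := Fin (k + 1)) (F := fun l => P (e l))
      (a := fun l => a (e l)) (c := fun l => c (e l)) (fun l => h (e l)) (hc.comp he)
    exact ⟨Pool.Agent.N455.HT.Equi.of_ws (Pool.Agent.N455.HT.WS.of_power h1),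
      Pool.Agent.N455.HT.Equi.of_ws (Pool.Agent.N455.HT.WS.of_power h2)⟩
  have conv : ∀ S : ℕ → Finset ℕ, (∀ (k : ℕ) (e : Fin (k + 1) → ℕ), Function.Injective e →
      Pool.Agent.N455.HT.Equi S (fun n l => floors P a (e l) n)) →
      Equidistributed S (floors P a) := by
    intro S hS k e he q hq b
    rcases k with _ | k
    · have h1 := hS 0 (fun _ => 0) (fun i j _ => by omega) 1 le_rfl (fun _ => 0)
      have h2 : (1 : ℝ) / ((1 : ℕ) : ℝ) ^ Fintype.card (Fin (0 + 1)) = 1 / (q : ℝ) ^ 0 := by simp
      rw [h2] at h1
      refine h1.congr fun N => ?_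
      congr 3
      ext n
      simp only [Set.mem_ofPred_eq]
      refine and_congr_right fun _ => ?_
      constructor
      · intro _ l
        exact l.elim0
      · intro _ l
        exact Int.modEq_one
    · have h1 := hS k e he q hq b
      rw [Fintype.card_fin] at h1
      exact h1
  exact ⟨conv _ fun k e he => (key k e he).1, conv _ fun k e he => (key k e he).2⟩

/-- **Rational preperiodic points in thin families.** There is a function `N` such that for all
sequences `v 0, v 1, ...` of integers which are jointly equidistributed modulo all integers along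
finite sets `S N` there is ONE set `E` of relative density zero with the following property. Let
`F_0, F_1` be binary forms of degree `d ≥ 2` with coefficients in `ℚ[t_1, ..., t_m]`, `m` arbitrary,
without a common zero over the algebraic closure of `ℚ(t_1, ..., t_m)`. There are `r` vectors `x_i` of
two polynomials in `ℚ[t_1, ..., t_m]` and a map `σ` of the set of the indices to itself such that

* `r ≤ N(d)`, unless the generic member is constant;
* the `x_i` are the homogeneous coordinates of the preperiodic points of the generic member in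
  `ℙ¹(ℚ(t_1, ..., t_m))`, without repetitions, and the `i`-th is mapped to the `σ(i)`-th;
* for all but finitely many `n` outside `E` the same holds for the member with the parameters
  `t_l = v_{e(l)}(n)` and the rational preperiodic points `x_i(t)`, and also for the member with the
  parameters `t_l = v_{e(l)}(n) / v_{e(0)}(n)`, for all choices of distinct indices `e`.

The hypothesis holds for the integer parts of infinitely many generalised polynomials with positive
distinct non-integral leading exponents, along the integers and also along the primes in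
`(N, 2N]`. -/
theorem result : (∃ N : ℕ → ℕ, ∀ (S : ℕ → Finset ℕ) (v : ℕ → ℕ → ℤ), Equidistributed S v →
      ∃ E : Set ℕ, NullIn S E ∧ ∀ (d : ℕ), 2 ≤ d → ∀ (m : ℕ)
        (F : Fin 2 → MvPolynomial (Fin 2) (MvPolynomial (Fin m) ℚ)), (∀ i, (F i).IsHomogeneous d) →
        IsMorphism (generic F) →
        ∃ (r : ℕ) (x : Fin r → Fin 2 → MvPolynomial (Fin m) ℚ) (σ : Fin r → Fin r),
          (¬ IsConstant (generic F) d → r ≤ N d) ∧
          IsPortrait (generic F)
            (fun i j => algebraMap (MvPolynomial (Fin m) ℚ) (RF m) (x i j)) σ ∧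
          (∀ e : Fin m → ℕ, Function.Injective e →
            {n | n ∉ E ∧ ¬ HasPortrait F x σ fun l => (v (e l) n : ℚ)}.Finite) ∧
          (∀ e : Fin (m + 1) → ℕ, Function.Injective e →
            {n | n ∉ E ∧ ¬ (v (e 0) n ≠ 0 ∧
              HasPortrait F x σ fun l => (v (e l.succ) n : ℚ) / (v (e 0) n : ℚ))}.Finite)) ∧
    ∀ (P : ℕ → Finset ℝ) (a : ℕ → ℝ → ℝ) (c : ℕ → ℝ), (∀ l, Admissible (P l) (a l) (c l)) →
      Function.Injective c →
      Equidistributed (fun N => Finset.Ioc N (2 * N)) (floors P a) ∧
        Equidistributed (fun N => (Finset.Ioc N (2 * N)).filter Nat.Prime) (floors P a) := by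
  classical
  refine ⟨?_, fun P a c h hc => equi_floors h hc⟩
  obtain ⟨N, hN⟩ := Pool.Agent.Results.MP_c076ed_nt.UniformPortrait.result
  refine ⟨N, fun S v hv => ?_⟩
  have : ∀ m, Countable (Dat m) := countable_dat
  obtain ⟨E, hE, hfin⟩ := Pool.Agent.N455.HT.diag_gen (S := S)
    (κ := (Σ m : ℕ, Dat m × (Fin m → ℕ)) ⊕ (Σ m : ℕ, Dat m × (Fin (m + 1) → ℕ)))
    (B := Sum.elim
      (fun j => {n | (Hyp j.2.1 ∧ Function.Injective j.2.2) ∧
        ¬ HasPortrait j.2.1.2.1 j.2.1.2.2.2.1 j.2.1.2.2.2.2 fun l => (v (j.2.2 l) n : ℚ)})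
      (fun j => {n | (Hyp j.2.1 ∧ Function.Injective j.2.2) ∧
        ¬ (v (j.2.2 0) n ≠ 0 ∧ HasPortrait j.2.1.2.1 j.2.1.2.2.2.1 j.2.1.2.2.2.2
          fun l => (v (j.2.2 l.succ) n : ℚ) / (v (j.2.2 0) n : ℚ))})) (by
      rintro (j | j)
      · by_cases hj : Hyp j.2.1 ∧ Function.Injective j.2.2
        · exact Pool.Agent.N455.HT.NullIn.mono' ((bad_null hj.1 hv).1 j.2.2 hj.2) fun n hn => hn.2
        · exact Pool.Agent.N455.HT.NullIn.mono' Pool.Agent.N455.HT.NullIn.empty'
            fun n hn => absurd hn.1 hj
      · by_cases hj : Hyp j.2.1 ∧ Function.Injective j.2.2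
        · exact Pool.Agent.N455.HT.NullIn.mono' ((bad_null hj.1 hv).2 j.2.2 hj.2) fun n hn => hn.2
        · exact Pool.Agent.N455.HT.NullIn.mono' Pool.Agent.N455.HT.NullIn.empty'
            fun n hn => absurd hn.1 hj)
  refine ⟨E, hE, fun d hd m F hF hmor => ?_⟩
  obtain ⟨r, x, σ, h1, h2, -⟩ := hN d hd m F hF hmor
  refine ⟨r, x, σ, h1, h2, fun e he => ?_, fun e he => ?_⟩
  · refine (hfin (Sum.inl ⟨m, (⟨d, F, ⟨r, x, σ⟩⟩ : Dat m), e⟩)).subset ?_
    rintro n ⟨hn, hn'⟩
    exact ⟨⟨⟨⟨hd, hF, hmor, h2⟩, he⟩, hn'⟩, hn⟩
  · refine (hfin (Sum.inr ⟨m, (⟨d, F, ⟨r, x, σ⟩⟩ : Dat m), e⟩)).subset ?_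
    rintro n ⟨hn, hn'⟩
    exact ⟨⟨⟨⟨hd, hF, hmor, h2⟩, he⟩, hn'⟩, hn⟩

end Pool.Agent.Results.MP_c076ed_nt.AllFamiliesAlongSequences
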