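import Pool.Agent.N236.UR.DIMain3

/-!
# A bound for the number of rational preperiodic points which does not depend on the degree

For all `D`, `k ≥ 1` and primes `p₁ ≠ p₂` there are `N ≥ 1` and `C` such that for every number field `K`
with `[K : ℚ] ≤ D` and every composition `φ` of Moebius maps over `K` and of exactly `k` power maps
`(x : y) ↦ (x ^ m : y ^ m)` with arbitrarily large exponents `m ≥ 2` prime to
`∏ (p₁ ^ f - 1) (p₂ ^ f - 1)` (product over `1 ≤ f ≤ D`) and to those `p_i` which are at most `D + 1`,
every preperiodic point `P ∈ ℙ¹ (K)` satisfies `φ ^ N (P) = P`, and if `K` has a real embedding, then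
there are at most `C` preperiodic points in `ℙ¹ (K)`. For `K = ℚ` and `{p₁, p₂} = {2, 3}` all odd
exponents are allowed (theorem `rational` below): for every `k` there is a constant `C (k)` such that
every composition of Moebius maps over `ℚ` and `k` odd powers has at most `C (k)` rational preperiodic
points. In particular there is an absolute constant `C` such that every rational function over `ℚ` of
odd degree, however large, with two rational critical points of full ramification has at most `C`
rational preperiodic points.

Idea. At a place of `K` above `p₁` or `p₂` every stage is a bijection of `ℙ¹ (K_v)` and moves absolute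
values of cross-ratios monotonically, also if the residue characteristic divides the exponent (then it
only shrinks residue classes further). Hence a cycle carries an invariant ultrametric, and it is a
translation of `ℤ / n` for it, which bounds the primes dividing `n` and the exponents of all primes
other than the residue characteristic in terms of `k`, `D`, `p₁`, `p₂` only. At a real place the power
maps are homeomorphisms of the circle, which strictly increase the cross-ratio of four points in an
interval without critical points. The set of fixed points of `φ ^ N` in such an interval has therefore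
at most three points, and there are at most `2 k N + 1` such intervals.

Parts by helpers 56, 78, 87, 106, 160, 222, 278, 281, 318, 360, 622, 727, 803, 823, 878 and (places) 514.
-/

set_option autoImplicit false

open Polynomial

namespace Pool.Agent.Results.MP_c076ed_nt.DegreeIndependent

open Pool.Agent.N236.UR
open scoped LinearAlgebra.Projectivization

theorem result : ∀ D k p₁ p₂ : ℕ, 1 ≤ k → p₁.Prime → p₂.Prime → p₁ ≠ p₂ → ∃ N C : ℕ, 1 ≤ N ∧
    ∀ (K : Type) [Field K] [NumberField K], Module.finrank ℚ K ≤ D →
      ∀ φ : ℙ K (K × K) → ℙ K (K × K), PowMoeb (badM D p₁ p₂) k φ →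
        (∀ P : ℙ K (K × K), (∃ m n : ℕ, m < n ∧ φ^[m] P = φ^[n] P) → φ^[N] P = P) ∧
        (Nonempty (K →+* ℝ) →
          {P : ℙ K (K × K) | ∃ m n : ℕ, m < n ∧ φ^[m] P = φ^[n] P}.Finite ∧
          {P : ℙ K (K × K) | ∃ m n : ℕ, m < n ∧ φ^[m] P = φ^[n] P}.ncard ≤ C) :=
  fun D k p₁ p₂ hk h1 h2 hne => main_di3' D k p₁ p₂ hk h1 h2 hne

/-- The case `K = ℚ`, `{p₁, p₂} = {2, 3}`: all odd exponents. -/
theorem rational (k : ℕ) (hk : 1 ≤ k) : ∃ C : ℕ, ∀ φ : ℙ ℚ (ℚ × ℚ) → ℙ ℚ (ℚ × ℚ), PowMoeb 2 k φ →
    {P : ℙ ℚ (ℚ × ℚ) | ∃ m n : ℕ, m < n ∧ φ^[m] P = φ^[n] P}.Finite ∧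
    {P : ℙ ℚ (ℚ × ℚ) | ∃ m n : ℕ, m < n ∧ φ^[m] P = φ^[n] P}.ncard ≤ C := by
  obtain ⟨N, C, -, h⟩ := result 1 k 2 3 hk Nat.prime_two Nat.prime_three (by norm_num)
  refine ⟨C, fun φ hφ => (h ℚ (by simp) φ (hφ.mono fun m hm => ?_)).2 ⟨Rat.castHom ℝ⟩⟩
  rw [badM_one_two_three]
  exact Nat.Coprime.pow_right 2 hm

end Pool.Agent.Results.MP_c076ed_nt.DegreeIndependent
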