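import Pool.Agent.N733.TG.K
import Pool.Agent.Results.MP_c076ed_nt.FewExceptionalUnicritical

/-!
# Uniform boundedness for all parameters near the values of multiplicative functions

The height `H(c)` of a rational number is the maximum of `|numerator|` and denominator. Let `f` be a positive multiplicative
function of at most polynomial growth such that `f p ≤ M p` for the large primes `p`, with different values at different large
primes; for example Euler's function or the sum of the divisors. Let `α > 0`, `d ≥ 1` and `κ < 1`. For every degree `e ≥ 2`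
there is a number `B`, which depends on `e`, `d` and `κ` only, such that for all `m ≤ N` but `N / (log N)^U` and for ALL
rational numbers `c` with `|H(c) - α f(m)^d| ≤ f(m)^κ` the map `z ^ e + c` has at most `B` rational preperiodic points. More
generally `G (f m)` takes the place of `α f(m)^d`, where `G` is any function with steps bounded below by a positive constant and
growth at most `v^d`. The values of `f` are in general taken with very large multiplicities, and so this does not follow from
the size of the exceptional set.

Proof. Write `m = k w` where `k` is composed of the primes `≤ z = N^(1 / J)`, `J` about `log log N`. For most `m` one has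
`k ≤ N^η`, and `w` is a product of at most `J` different primes. So `f(w)` is taken at most `(1 + τ)^J` times, `τ` its number of
divisors, which is at most `N^o(1)` on average, even in mean square: and the exceptional set has only `N^(1 - δ)` elements. Its
size is bounded by the starting theorem `FewExceptionalUnicritical` of this problem.
-/

set_option autoImplicit false

namespace Pool.Agent.Results.MP_c076ed_nt.MultiplicativeValues

open Pool.Agent.N733.TG (LM Expanding lm_totient lm_sigma keep_good expanding_pow)
open Pool.Agent.Results.MP_c076ed_nt.FewExceptionalUnicritical (preperiodic exceptional)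

/-- the height of a rational number -/
def height (c : ℚ) : ℕ := max c.num.natAbs c.den

lemma height_le (c : ℚ) (X : ℝ) : (height c : ℝ) ≤ X ↔ ((|c.num| : ℤ) : ℝ) ≤ X ∧ (c.den : ℝ) ≤ X := by
  unfold height
  rw [Nat.cast_max, max_le_iff, Nat.cast_natAbs]

/-- **Uniform boundedness near the values of multiplicative functions.** For all `e ≥ 2`, `d ≥ 1` and `0 ≤ κ < 1` there is `B`
such that the following holds. Let `f` be multiplicative and positive, of at most polynomial growth, with `f p ≤ M p` at the
large primes, and injective there. Let `G` have steps `≥ a > 0` and growth at most `v^d`. For every `U` and all large `N`, for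
all `m ≤ N` but `N / (log N)^U`, and for ALL rational numbers `c` with `|H(c) - G (f m)| ≤ f(m)^κ` the map `z ^ e + c` has at
most `B` rational preperiodic points. Euler's function and the sum of the divisors are examples of such functions `f`, and
`α v^d` with `α > 0`, `d ≥ 1` is an example of `G`. -/
theorem result :
    (∀ e : ℕ, 2 ≤ e → ∀ d κ : ℝ, 1 ≤ d → 0 ≤ κ → κ < 1 → ∃ B : ℕ,
      ∀ f : ℕ → ℕ, LM f → ∀ G : ℕ → ℝ, Expanding G d → ∀ U : ℕ, ∃ N₀ : ℕ, ∀ N : ℕ, N₀ ≤ N →
      ({m : ℕ | 1 ≤ m ∧ m ≤ N ∧ ¬ ∀ c : ℚ, |(height c : ℝ) - G (f m)| ≤ (f m : ℝ) ^ κ →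
        (preperiodic e c).encard ≤ B}.ncard : ℝ) ≤ N / Real.log N ^ U) ∧
    (LM Nat.totient ∧ LM (fun m => ∑ d ∈ m.divisors, d)) ∧
    ∀ α d : ℝ, 0 < α → 1 ≤ d → Expanding (fun v => α * (v : ℝ) ^ d) d := by
  refine ⟨fun e he d κ hd hκ hκ1 => ?_, ⟨lm_totient, lm_sigma⟩, fun α d hα hd => expanding_pow hα hd⟩
  obtain ⟨s, hs⟩ : ∃ s : ℝ, s = (1 - κ) / (2 * d) := ⟨_, rfl⟩
  have hs0 : 0 < s := by
    rw [hs]
    exact div_pos (by linarith) (by linarith)
  have hds : d * s + κ < 1 := by
    have h1 : d * s = (1 - κ) / 2 := by
      rw [hs]
      field_simp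
    rw [h1]
    linarith
  obtain ⟨B, C, h⟩ := FewExceptionalUnicritical.result e he s hs0
  refine ⟨B, fun f hf G hG U => ?_⟩
  obtain ⟨N₀, hN₀⟩ := keep_good (fun _ : ℚ => True) (fun c => (preperiodic e c).encard ≤ B) (fun c => (height c : ℝ)) hf hG
    hs0.le hκ hds (fun ε hε => by
      refine ⟨max C 0, fun X hX => ?_⟩
      have hset : {t : ℚ | (True ∧ ¬ (preperiodic e t).encard ≤ B) ∧ (height t : ℝ) ≤ X} = exceptional e B X := by
        ext c
        constructor
        · rintro ⟨⟨_, h1⟩, h2⟩
          obtain ⟨h5, h6⟩ := (height_le c X).1 h2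
          exact ⟨h5, h6, not_le.1 h1⟩
        · rintro ⟨h5, h6, h1⟩
          exact ⟨⟨trivial, not_le.2 h1⟩, (height_le c X).2 ⟨h5, h6⟩⟩
      rw [hset]
      obtain ⟨h5, h6⟩ := h X hX
      refine ⟨h5, h6.trans ?_⟩
      calc C * X ^ s ≤ max C 0 * X ^ s := mul_le_mul_of_nonneg_right (le_max_left _ _) (by positivity)
        _ ≤ max C 0 * X ^ (s + ε) := by
            apply mul_le_mul_of_nonneg_left _ (le_max_right _ _)
            exact Real.rpow_le_rpow_of_exponent_le hX (by linarith)) U
  refine ⟨N₀, fun N hN => le_trans (le_of_eq ?_) (hN₀ N hN)⟩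
  congr 2
  ext m
  simp only [Set.mem_ofPred_eq, forall_true_left]

end Pool.Agent.Results.MP_c076ed_nt.MultiplicativeValues
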