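import Pool.Agent.N407.RO.Loc
import Pool.Agent.TH377.Dyn.Rat
import Pool.Agent.N24.RW.All

/-!
# MP_c076ed_nt: the preperiodic points of rational maps along random orbits of thin groups

Let `s_0, ..., s_k` be integral matrices of determinant one and of size `(d + 2) m` which generate
`SL(ℤ/q)` for all `q` prime to some `q₀` (by strong approximation this holds whenever they generate a
Zariski dense subgroup, also if its index in `SL(ℤ)` is infinite), let `v ≠ 0` be an integral vector and
let `c_n = s_(w(n-1)) ... s_(w 0) v` for independent random indices `w 0, w 1, ...`. For a number field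
`K` of degree `m` with an integral basis `ω` the vector `c_n` is the vector of the coordinates of the
integers `b, a_0, ..., a_d` of `K`. We consider the rational maps

  `f(x) = F(x) / (b G(x))`,  `F = a_0 + a_1 x + ... + a_d x^d`,  `deg G < d`.

**Theorem.** Almost surely, for all number fields `K` of degree `m`, all integral bases of `K` and all
`D ≥ 1`, for all `n` outside a set of density zero the following holds for ALL polynomials `G ≠ 0` over
`O_K` of degree less than `d`, whose leading coefficient divides a power of `D`: `f` has degree `d`, and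
for ALL number fields `L ⊇ K` whose degree over `K` is not divisible by `d` the preperiodic points of
`f` in `ℙ¹(L)` are exactly `∞` and the zeros of `G` in `L`. In particular `f` has at most `d`
preperiodic points in `ℙ¹(L)`. Moreover the closure of the set of all exceptional integral vectors in
the product of the `ℤ_p^((d + 2) m)`, `p` not dividing `M`, has Haar measure zero, for every `M`.

Proof. If `v` is a prime of `K` which divides `b` exactly once and not `D`, such that `F` is irreducible
of degree `d` modulo `v`, then `f` has this property for all `G` (starting library `TH377.Dyn.Rat`). For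
the prime numbers `p` that are norms of prime ideals this is a condition on the residues modulo `p²` of
density at least `(1/4d) (1/p - 1/p²)`, and the sum of these densities diverges. The random orbit modulo
`q` is equidistributed in an orbit of `SL(ℤ/q)`, which contains at least half of all vectors.
-/

set_option autoImplicit false

namespace Pool.Agent.Results.MP_c076ed_nt.RandomOrbitMaps

open Polynomial NumberField Filter Topology
open Pool.Agent.N24.RW (Walk orb words ProNull)

/-- The integer `∑ c_(i,j) ω_j` of `K`, `i = 0, ..., d + 1`. -/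
noncomputable def entry {K : Type} [Field K] {m d : ℕ} (ω : Module.Basis (Fin m) ℤ (𝓞 K))
    (c : Fin (d + 2) × Fin m → ℤ) (i : Fin (d + 2)) : 𝓞 K :=
  ∑ j, c (i, j) • ω j

/-- The polynomial `F = a_0 + a_1 x + ... + a_d x^d` over `O_K`, where `a_i` is the entry `i + 1`. -/
noncomputable def numerator {K : Type} [Field K] {m d : ℕ} (ω : Module.Basis (Fin m) ℤ (𝓞 K))
    (c : Fin (d + 2) × Fin m → ℤ) : (𝓞 K)[X] :=
  ∑ i : Fin (d + 1), C (entry ω c i.succ) * X ^ (i : ℕ)

/-- The self-map `x ↦ F(x) / (b G(x))` of `ℙ¹(L) = L ∪ {∞}`, where `∞ = none`, for polynomials `F` and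
`G` with `deg G < deg F`, so that `∞` is a fixed point. -/
noncomputable def ratMap {L : Type} [Field L] (F G : L[X]) (b : L) : Option L → Option L
  | none => none
  | some x => open Classical in if G.eval x = 0 then none else some (F.eval x / (b * G.eval x))

/-- The vector `c` has the following property: `b ≠ 0`, `F` has degree `d`, and for all polynomials
`G ≠ 0` over `O_K` of degree less than `d`, whose leading coefficient divides a power of `D`, the
polynomials `F` and `G` are coprime over `K`, so that `f = F / (b G)` has degree `d`, and for all number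
fields `L ⊇ K` whose degree over `K` is not divisible by `d` the points with a finite orbit under `f` in
`ℙ¹(L)` are exactly `∞` and the zeros of `G`. -/
def Exact {K : Type} [Field K] {m d : ℕ} (ω : Module.Basis (Fin m) ℤ (𝓞 K)) (D : ℕ)
    (c : Fin (d + 2) × Fin m → ℤ) : Prop :=
  entry ω c 0 ≠ 0 ∧ (numerator ω c).natDegree = d ∧
    ∀ G : (𝓞 K)[X], G ≠ 0 → G.natDegree < d → (∃ k : ℕ, G.leadingCoeff ∣ (D : 𝓞 K) ^ k) →
      IsCoprime ((numerator ω c).map (algebraMap (𝓞 K) K)) (G.map (algebraMap (𝓞 K) K)) ∧
      ∀ (L : Type) [Field L] [NumberField L] [Algebra K L], ¬ d ∣ Module.finrank K L →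
        ∀ P : Option L, (Set.range fun n : ℕ => (ratMap ((numerator ω c).map (algebraMap (𝓞 K) L))
          (G.map (algebraMap (𝓞 K) L)) (algebraMap (𝓞 K) L (entry ω c 0)))^[n] P).Finite ↔
            P = none ∨ ∃ x : L, P = some x ∧ (G.map (algebraMap (𝓞 K) L)).eval x = 0

section proof

open IsDedekindDomain Pool.Agent.TH377.Dyn Pool.Agent.TH377.Sup
open Pool.Agent.N692.TS (LocGood vec)

theorem numerator_eq {K : Type} [Field K] {m d : ℕ} (ω : Module.Basis (Fin m) ℤ (𝓞 K))
    (c : Fin (d + 2) × Fin m → ℤ) : numerator ω c = num (vec ω d c) := rfl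

theorem ratMap_eq {L : Type} [Field L] (F G : L[X]) (b : L) : ratMap F G b = rat F G b := by
  funext P
  cases P <;> rfl

theorem iterate_none {L : Type} [Field L] (F G : L[X]) (b : L) (n : ℕ) :
    (rat F G b)^[n] none = none := by
  induction n with
  | zero => rfl
  | succ n ih => rw [Function.iterate_succ_apply', ih]; rfl

theorem exact_of_good {K : Type} [Field K] [NumberField K] {m d : ℕ}
    (ω : Module.Basis (Fin m) ℤ (𝓞 K)) (D : ℕ) (hD : 0 < D) (c : Fin (d + 2) × Fin m → ℤ)
    (h : LocGood d D (vec ω d c)) : Exact ω D c := by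
  obtain ⟨v, hDv, h1, h2, h3⟩ := h
  obtain ⟨g1, g2, g3⟩ := num_facts (vec ω d c) v h3
  have h0 : entry ω c 0 ≠ 0 := by
    intro h0
    apply h2
    have : vec ω d c 0 = 0 := h0
    rw [this]
    exact zero_mem _
  have hDmem : (D : 𝓞 K) ∉ v.asIdeal := by
    intro hmem
    apply hDv
    obtain ⟨k, hk⟩ := Nat.dvd_factorial hD le_rfl
    rw [hk, Nat.cast_mul]
    exact v.asIdeal.mul_mem_right _ hmem
  refine ⟨h0, g1, fun G hG0 hGd hlc => ?_⟩
  have hGv : G.leadingCoeff ∉ v.asIdeal := by
    obtain ⟨k, r, hk⟩ := hlc
    intro hmem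
    apply hDmem
    have h5 : (D : 𝓞 K) ^ k ∈ v.asIdeal := by
      rw [hk]
      exact v.asIdeal.mul_mem_right _ hmem
    exact v.isPrime.mem_of_pow_mem k h5
  have hGF : G.natDegree < (num (vec ω d c)).natDegree := by rw [g1]; exact hGd
  refine ⟨num_coprime v (num (vec ω d c)) g2 g3 G hG0 hGF, ?_⟩
  intro L _ _ _ hL P
  rw [ratMap_eq, numerator_eq]
  have hfin_none : ((Set.range fun n : ℕ => (rat ((num (vec ω d c)).map (algebraMap (𝓞 K) L))
      (G.map (algebraMap (𝓞 K) L)) (algebraMap (𝓞 K) L (entry ω c 0)))^[n] none)).Finite := by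
    refine (Set.finite_singleton (none : Option L)).subset ?_
    rintro _ ⟨n, rfl⟩
    exact iterate_none _ _ _ n
  constructor
  · intro hfin
    rcases P with _ | x
    · exact Or.inl rfl
    · right
      refine ⟨x, rfl, ?_⟩
      by_contra hx
      have hinj := rat_injective v (entry ω c 0) h1 h0 (num (vec ω d c)) g2 g3 G hGv hGF
        (by rw [g1]; exact hL) x hx
      exact Set.infinite_range_of_injective hinj hfin
  · rintro (rfl | ⟨x, rfl, hx⟩)
    · exact hfin_none
    · refine ((Set.finite_singleton (some x)).union (Set.finite_singleton none)).subset ?_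
      rintro _ ⟨n, rfl⟩
      cases n with
      | zero => exact Or.inl rfl
      | succ n =>
        right
        simp only
        rw [Function.iterate_succ_apply, rat_zero _ _ _ _ hx, iterate_none]
        rfl

end proof

/-- **The preperiodic points of rational maps along random orbits.** -/
theorem result (d m : ℕ) (hd : 2 ≤ d) :
    (∀ (K : Type) [Field K] [NumberField K] (ω : Module.Basis (Fin m) ℤ (𝓞 K)) (D : ℕ), 0 < D →
      ProNull {c : Fin (d + 2) × Fin m → ℤ | ¬ Exact ω D c}) ∧
    ∀ (W : Walk (Fin (d + 2) × Fin m)) (v : Fin (d + 2) × Fin m → ℤ), v ≠ 0 →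
      ∀ᵐ w ∂(words W.m), ∀ (K : Type) [Field K] [NumberField K] (ω : Module.Basis (Fin m) ℤ (𝓞 K))
        (D : ℕ), 0 < D →
          Tendsto (fun N : ℕ => (({n : ℕ | n < N ∧ ¬ Exact ω D (orb W v w n)}.ncard : ℕ) : ℝ) /
            (N : ℝ)) atTop (𝓝 0) := by
  refine ⟨fun K _ _ ω D hD => ?_, fun W v hv => ?_⟩
  · have h0 := Pool.Agent.N407.RO.proNull_locGood Pool.Agent.N24.RW.crit Pool.Agent.N24.RW.clo ω d hd D
    refine (Pool.Agent.N24.RW.clo (Fin (d + 2) × Fin m)).1 _ _ ?_ h0
    intro c hc hg
    exact hc (exact_of_good ω D hD c hg)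
  · have h1 := Pool.Agent.N407.RO.ae_locGood Pool.Agent.N24.RW.crit Pool.Agent.N24.RW.clo
      Pool.Agent.N24.RW.main d m hd W v hv
    filter_upwards [h1] with w hw K _ _ ω D hD
    refine Pool.Agent.N407.RO.tendsto_zero_mono (A := {n | ¬ Exact ω D (orb W v w n)})
      (B := {n | ¬ Pool.Agent.N692.TS.LocGood d D (Pool.Agent.N692.TS.vec ω d (orb W v w n))}) ?_
      (hw K ω D)
    intro n hn hg
    exact hn (exact_of_good ω D hD _ hg)

end Pool.Agent.Results.MP_c076ed_nt.RandomOrbitMaps
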